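import Pool.Agent.Helper86.MQ.Defs

/-!
# From the complex numbers to a field of definition, and the ring of definition of an orbit
-/

set_option autoImplicit false

namespace Pool.Agent.Helper87.GT

open MvPolynomial
open Pool.Agent.Helper86.MQ (pm)

/-- A hypersurface over a larger field lies, as far as points over the small field are concerned, in
a hypersurface over the small field. -/
theorem exists_down {K E : Type*} [Field K] [Field E] (σ : K →+* E) {n : ℕ}
    (F : MvPolynomial (Fin n) E) (hF : F ≠ 0) :
    ∃ G : MvPolynomial (Fin n) K, G ≠ 0 ∧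
      ∀ β : Fin n → K, eval (fun i => σ (β i)) F = 0 → eval β G = 0 := by
  classical
  letI := σ.toAlgebra
  obtain ⟨s0, hs0⟩ := ne_zero_iff.1 hF
  have hlam : ∃ lam : E →ₗ[K] K, lam (coeff s0 F) ≠ 0 := by
    by_contra hl
    push Not at hl
    exact hs0 ((Module.forall_dual_apply_eq_zero_iff K _).1 hl)
  obtain ⟨lam, hlam⟩ := hlam
  set G : MvPolynomial (Fin n) K := ∑ s ∈ F.support, monomial s (lam (coeff s F)) with hG
  refine ⟨G, ?_, ?_⟩
  · intro h0
    apply hlam
    have h1 : coeff s0 G = lam (coeff s0 F) := by
      rw [hG, coeff_sum]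
      simp only [coeff_monomial]
      rw [Finset.sum_eq_single s0]
      · rw [if_pos rfl]
      · intro b _ hb
        rw [if_neg hb]
      · intro h
        exact absurd (mem_support_iff.2 hs0) h
    rw [← h1, h0, coeff_zero]
  · intro β hβ
    have h1 : eval β G = lam (eval (fun i => σ (β i)) F) := by
      rw [hG, map_sum, eval_eq' (fun i => σ (β i)) F, map_sum]
      refine Finset.sum_congr rfl fun s _ => ?_
      rw [eval_monomial, Finsupp.prod_fintype _ _ (fun i => pow_zero _)]
      have h2 : coeff s F * ∏ i, σ (β i) ^ s i = (∏ i, β i ^ s i) • coeff s F := by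
        rw [Algebra.smul_def, map_prod, mul_comm]
        congr 1
        exact Finset.prod_congr rfl fun i _ => (map_pow σ _ _).symm
      rw [h2, map_smul, smul_eq_mul, mul_comm]
    rw [h1, hβ, map_zero]

/-- All points of an orbit are defined over one finitely generated ring. -/
theorem exists_ring {K : Type*} [Field K] {n : ℕ} (Φ : Fin n → MvPolynomial (Fin n) K)
    (x : Fin n → K) :
    ∃ S : Finset K, ∀ k i, (pm Φ)^[k] x i ∈ Subring.closure (S : Set K) := by
  classical
  refine ⟨(Finset.univ.biUnion fun i => (Φ i).support.image fun s => coeff s (Φ i)) ∪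
    Finset.univ.image x, fun k => ?_⟩
  set S : Finset K := (Finset.univ.biUnion fun i => (Φ i).support.image fun s => coeff s (Φ i)) ∪
    Finset.univ.image x with hS
  have hco : ∀ i, ∀ s ∈ (Φ i).support, coeff s (Φ i) ∈ Subring.closure (S : Set K) := by
    intro i s hs
    apply Subring.subset_closure
    rw [hS, Finset.coe_union]
    left
    rw [Finset.mem_coe, Finset.mem_biUnion]
    exact ⟨i, Finset.mem_univ _, Finset.mem_image.2 ⟨s, hs, rfl⟩⟩
  induction k with
  | zero =>
    intro i
    apply Subring.subset_closure
    rw [hS, Finset.coe_union]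
    right
    rw [Finset.mem_coe, Finset.mem_image]
    exact ⟨i, Finset.mem_univ _, rfl⟩
  | succ k ih =>
    intro i
    rw [Function.iterate_succ_apply']
    change eval ((pm Φ)^[k] x) (Φ i) ∈ _
    rw [eval_eq']
    exact sum_mem fun s hs => mul_mem (hco i s hs) (prod_mem fun j _ => pow_mem (ih j) _)

end Pool.Agent.Helper87.GT
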