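import Pool.Agent.Helper87.GT.Gap
import Pool.Agent.Helper86.GT.Gap
import Pool.Agent.Helper26.GT.Term

/-!
# The gap theorem over the complex numbers
-/

set_option autoImplicit false

namespace Pool.Agent.Helper87.GT

open MvPolynomial Height
open Pool.Agent.Helper86.MQ (pm)
open Pool.Agent.Helper26.GT (wd Dom ca)

theorem bind_iterate_map {K E : Type*} [Field K] [Field E] (σ : K →+* E) {m : ℕ}
    (Φ : Fin (m + 1) → MvPolynomial (Fin (m + 1)) K) (k : ℕ) (G : MvPolynomial (Fin (m + 1)) K) :
    (fun G => bind₁ (fun i => MvPolynomial.map σ (Φ i)) G)^[k] (MvPolynomial.map σ G) =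
      MvPolynomial.map σ ((fun G => bind₁ Φ G)^[k] G) := by
  induction k generalizing G with
  | zero => rfl
  | succ k ih =>
    rw [Function.iterate_succ_apply, Function.iterate_succ_apply, ← ih, map_bind₁]

theorem pm_iterate_map {K E : Type*} [Field K] [Field E] (σ : K →+* E) {m : ℕ}
    (Φ : Fin (m + 1) → MvPolynomial (Fin (m + 1)) K) (x : Fin (m + 1) → K) (n : ℕ) :
    (pm (fun i => MvPolynomial.map σ (Φ i)))^[n] (fun i => σ (x i)) =
      fun i => σ ((pm Φ)^[n] x i) := by
  induction n with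
  | zero => rfl
  | succ n ih =>
    rw [Function.iterate_succ_apply', ih, Function.iterate_succ_apply']
    funext i
    change eval (fun i => σ ((pm Φ)^[n] x i)) (MvPolynomial.map σ (Φ i)) =
      σ (eval ((pm Φ)^[n] x) (Φ i))
    rw [eval_map]
    have := MvPolynomial.eval₂_comp_left σ (RingHom.id K) ((pm Φ)^[n] x) (Φ i)
    rw [eval₂_id, RingHom.comp_id] at this
    exact this.symm

theorem totalDegree_map_eq {K E : Type*} [Field K] [Field E] (σ : K →+* E) {m : ℕ}
    (G : MvPolynomial (Fin (m + 1)) K) : (MvPolynomial.map σ G).totalDegree = G.totalDegree := by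
  rw [totalDegree, totalDegree, support_map_of_injective _ σ.injective]

/-- The complex form of the gap theorem. -/
theorem complex_gap {m d e : ℕ} (he : 1 ≤ e) (hed : e < d)
    {Φ : Fin (m + 1) → MvPolynomial (Fin (m + 1)) ℂ} (hΦ : Dom d e Φ) (x : Fin (m + 1) → ℂ)
    {F : MvPolynomial (Fin (m + 1)) ℂ} (hF : F ≠ 0)
    (hinf : {n | eval ((pm Φ)^[n] x) F = 0}.Infinite) :
    (∀ v : AbsoluteValue ℂ ℝ, ∃ C : ℝ, ∀ n i, Real.posLog (v ((pm Φ)^[n] x i)) ≤
      C * ∑ j ∈ Finset.range (n + 1), (e : ℝ) ^ j) ∧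
    ∀ (K : Subfield ℂ) [NumberField K], (∀ i s, coeff s (Φ i) ∈ K) → (∀ i, x i ∈ K) →
      ∃ C : ℝ, ∀ n i, ∃ y : K, (y : ℂ) = (pm Φ)^[n] x i ∧ logHeight₁ y ≤
        C * ∑ j ∈ Finset.range (n + 1), (e : ℝ) ^ j := by
  classical
  have hd : 2 ≤ d := by omega
  refine ⟨fun v => ?_, fun K _ hK hx => ?_⟩
  · rcases Pool.Agent.Helper86.GT.local_gap v hd hed hΦ.deg hΦ.top x with h | h
    · exact h
    · obtain ⟨k, hk⟩ := Pool.Agent.Helper26.GT.term he hed hΦ hF
      exact absurd (h F k hk) hinf
  · -- the map over the number field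
    set Ψ : Fin (m + 1) → MvPolynomial (Fin (m + 1)) K := fun i =>
      ∑ s ∈ (Φ i).support, monomial s (⟨coeff s (Φ i), hK i s⟩ : K) with hΨ
    have hΨΦ : (fun i => MvPolynomial.map K.subtype (Ψ i)) = Φ := by
      funext i
      rw [hΨ]
      dsimp only
      rw [map_sum]
      conv_rhs => rw [← support_sum_monomial_coeff (Φ i)]
      refine Finset.sum_congr rfl fun s _ => ?_
      rw [map_monomial]
      rfl
    set y : Fin (m + 1) → K := fun i => ⟨x i, hx i⟩ with hy
    have hxy : x = fun i => K.subtype (y i) := rfl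
    have horb : ∀ n, (pm Φ)^[n] x = fun i => K.subtype ((pm Ψ)^[n] y i) := by
      intro n
      rw [hxy, ← hΨΦ, ← pm_iterate_map]
    have hdeg : ∀ i, (Ψ i).totalDegree ≤ wd d e i := by
      intro i
      rw [← totalDegree_map_eq K.subtype, congrFun hΨΦ i]
      exact hΦ.deg i
    have htop : ca d Ψ ≠ 0 := by
      intro h0
      apply hΦ.top
      have h1 : ca d Φ = K.subtype (ca d Ψ) := by
        rw [ca, ca, ← congrFun hΨΦ, coeff_map]
      rw [h1, h0, map_zero]
    rcases gap K.subtype (Φ := Ψ) y (fun n => ∑ j ∈ Finset.range (n + 1), (e : ℝ) ^ j)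
      (fun v => by
        rcases Pool.Agent.Helper86.GT.local_gap v hd hed hdeg htop y with h | h
        · exact Or.inl h
        · right
          intro G hG
          have hG' : MvPolynomial.map K.subtype G ≠ 0 := fun h0 =>
            hG (map_injective K.subtype K.subtype.injective (by rw [h0, map_zero]))
          obtain ⟨k, hk⟩ := Pool.Agent.Helper26.GT.term he hed hΦ hG'
          refine h G k ?_
          rw [← hΨΦ, bind_iterate_map, totalDegree_map_eq, coeff_map] at hk
          intro h0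
          rw [h0, map_zero] at hk
          exact hk rfl) with h | h
    · obtain ⟨C, hC⟩ := h
      exact ⟨C, fun n i => ⟨(pm Ψ)^[n] y i, (congrFun (horb n) i).symm, hC n i⟩⟩
    · exfalso
      apply hinf
      refine (h F hF).subset fun n hn => ?_
      change eval ((pm Φ)^[n] x) F = 0 at hn
      rw [horb] at hn
      exact hn

end Pool.Agent.Helper87.GT
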