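import Pool.Agent.Helper87.GT.Main

/-!
# The gap theorem: slow growth, or all return sets are finite
-/

set_option autoImplicit false

namespace Pool.Agent.Helper87.GT

open MvPolynomial Height
open Pool.Agent.Helper86.MQ (pm)

/-- **The gap theorem**, from the local dichotomies. -/
theorem gap {K : Type*} [Field K] [AdmissibleAbsValues K] {E : Type*} [Field E] (σ : K →+* E)
    {m : ℕ} {Φ : Fin (m + 1) → MvPolynomial (Fin (m + 1)) K} (x : Fin (m + 1) → K) (b : ℕ → ℝ)
    (hloc : ∀ v : AbsoluteValue K ℝ,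
      (∃ C : ℝ, ∀ n i, Real.posLog (v ((pm Φ)^[n] x i)) ≤ C * b n) ∨
        ∀ G : MvPolynomial (Fin (m + 1)) K, G ≠ 0 → {n | eval ((pm Φ)^[n] x) G = 0}.Finite) :
    (∃ C : ℝ, ∀ n i, logHeight₁ ((pm Φ)^[n] x i) ≤ C * b n) ∨
      ∀ F : MvPolynomial (Fin (m + 1)) E, F ≠ 0 →
        {n | eval (fun i => σ ((pm Φ)^[n] x i)) F = 0}.Finite := by
  classical
  by_cases h : ∃ v : AbsoluteValue K ℝ,
      ∀ G : MvPolynomial (Fin (m + 1)) K, G ≠ 0 → {n | eval ((pm Φ)^[n] x) G = 0}.Finite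
  · right
    obtain ⟨v, hv⟩ := h
    intro F hF
    obtain ⟨G, hG0, hG⟩ := exists_down σ F hF
    exact (hv G hG0).subset fun n hn => hG _ hn
  · left
    have h1 : ∀ v : AbsoluteValue K ℝ,
        ∃ C : ℝ, ∀ n i, Real.posLog (v ((pm Φ)^[n] x i)) ≤ C * b n := by
      intro v
      rcases hloc v with h2 | h2
      · exact h2
      · exact absurd ⟨v, h2⟩ h
    choose C hC using h1
    obtain ⟨S, hS⟩ := exists_ring Φ x
    obtain ⟨L, hL⟩ := Pool.Agent.Helper52.RR.height_eq S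
    refine ⟨(L.map C).sum, fun n i => ?_⟩
    rw [hL _ (hS n i), ← List.sum_map_mul_right]
    exact List.sum_le_sum fun v _ => hC v n i

end Pool.Agent.Helper87.GT
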