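import Pool.Agent.Helper87.GT.Down
import Pool.Agent.Helper86.GT.Growth
import Pool.Agent.Helper52.RR.Place

/-!
# Orbits of maximal growth under maps with a dominant component
-/

set_option autoImplicit false

namespace Pool.Agent.Helper87.GT

open MvPolynomial Height
open Pool.Agent.Helper86.MQ (pm)
open Pool.Agent.Helper26.GT (wd)

theorem exists_ge_of_infinite {S : Set ℕ} (h : S.Infinite) (N : ℕ) : ∃ n, N ≤ n ∧ n ∈ S := by
  obtain ⟨n, hn, hN⟩ := h.exists_gt N
  exact ⟨n, hN.le, hn⟩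

/-- The main theorem, for a map such that the compositions of every polynomial with some iterate is
dominated by a power of the last coordinate. -/
theorem main {K : Type*} [Field K] [AdmissibleAbsValues K] {E : Type*} [Field E] (σ : K →+* E)
    {m d e : ℕ} (hd : 2 ≤ d) (he : e < d) {Φ : Fin (m + 1) → MvPolynomial (Fin (m + 1)) K}
    (deg : ∀ i, (Φ i).totalDegree ≤ wd d e i)
    (hT : ∀ G : MvPolynomial (Fin (m + 1)) K, G ≠ 0 →
      ∃ k, coeff (Finsupp.single (Fin.last m) (((fun G => bind₁ Φ G)^[k] G).totalDegree))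
        ((fun G => bind₁ Φ G)^[k] G) ≠ 0)
    (x : Fin (m + 1) → K) {ε : ℝ} (hε : 0 < ε)
    (hgr : {n : ℕ | ∃ i, ε * (d : ℝ) ^ n ≤ logHeight₁ ((pm Φ)^[n] x i)}.Infinite)
    (F : MvPolynomial (Fin (m + 1)) E) (hF : F ≠ 0) :
    {n | eval (fun i => σ ((pm Φ)^[n] x i)) F = 0}.Finite := by
  obtain ⟨G, hG0, hG⟩ := exists_down σ F hF
  obtain ⟨S, hS⟩ := exists_ring Φ x
  obtain ⟨v, ε', hε', hv⟩ := Pool.Agent.Helper52.RR.exists_place S (fun n => (pm Φ)^[n] x) hS
    (fun n => (d : ℝ) ^ n) (fun n => by positivity) hε hgr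
  obtain ⟨k, hk⟩ := hT G hG0
  have h1 := Pool.Agent.Helper86.GT.growth v hd he deg x
    ⟨ε', hε', fun N => exists_ge_of_infinite hv N⟩ k hk
  exact h1.subset fun n hn => hG _ hn

end Pool.Agent.Helper87.GT
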